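import Pool.Agent.Mg.F6374aa.G3d1f19

namespace Pool.Agent.Results.MP_6374aa_gt.PrimeSummands

open Pool.Agent.MP_6374aa_gt Pool.Agent.MP_6374aa_g

theorem result :
    (∀ (V V' : Type) (Γ : SimpleGraph V) (Γ' : SimpleGraph V'),
      Cx.Closed ⟨V, Γ, Set.univ⟩ → Cx.Closed ⟨V', Γ', Set.univ⟩ → NoSquare Γ → NoSquare Γ' →
      Nonempty (@Homeomorph (Bdry Γ) (Bdry Γ') (bdryTop Γ) (bdryTop Γ')) →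
      ∀ P : Cx, P.Closed → P.IsPrime → (∃ R, CSum P R ⟨V', Γ', Set.univ⟩) →
        (∃ R, CSum P R ⟨V, Γ, Set.univ⟩) ∨
          (P.S2S1 ∧ ¬ Cx.Orient ⟨V, Γ, Set.univ⟩ ∧ Cx.HasNS ⟨V, Γ, Set.univ⟩)) ∧
    ∃ (V V' : Type) (Γ : SimpleGraph V) (Γ' : SimpleGraph V') (P : Cx),
      Cx.Closed ⟨V, Γ, Set.univ⟩ ∧ Cx.Closed ⟨V', Γ', Set.univ⟩ ∧ NoSquare Γ ∧ NoSquare Γ' ∧
      Nonempty (@Homeomorph (Bdry Γ) (Bdry Γ') (bdryTop Γ) (bdryTop Γ')) ∧ P.Closed ∧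
      P.IsPrime ∧ P.S2S1 ∧ (∃ R, CSum P R ⟨V', Γ', Set.univ⟩) ∧
      ¬ ∃ R, CSum P R ⟨V, Γ, Set.univ⟩ :=
  ⟨pos_of hdp_main hdc_main vs_main, neg_of hdp_main hdc_main⟩

end Pool.Agent.Results.MP_6374aa_gt.PrimeSummands
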